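import Pool.Agent.Q113.XU.Stm
import Pool.Agent.Q176.XM.DIS

/-!
Project XU of helper113, job XU-DIT (after the proof of XM-DIS by helper176).
-/

set_option autoImplicit false

namespace Pool.Agent.Q102.XU

open Finset Pool.Agent.W890.SF Pool.Agent.W593.IR Pool.Agent.Q54.EM Pool.Agent.Q113.XM
  Pool.Agent.Q113.XU Pool.Agent.Q176.XM

/-- **XU-DIT** -/
theorem t_DIT : S_DI3X → S_DIT := by
  classical
  intro hDI k hk x0 γ hx0 hγ
  obtain ⟨γ', hγ', n1, H1⟩ := hDI k (by omega) x0 γ hx0 hγ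
  have hk0 : (0 : ℝ) < k := by
    have : 0 < k := by omega
    exact_mod_cast this
  obtain ⟨γ1, hγ1d⟩ : ∃ γ1 : ℝ, γ1 = min (γ' / 8) (min (1 / 2) (1 / (2 * k))) := ⟨_, rfl⟩
  have hγ1 : 0 < γ1 := by
    rw [hγ1d]
    exact lt_min (by positivity) (lt_min (by norm_num) (by positivity))
  have hγ1a : γ1 ≤ γ' / 8 := by
    rw [hγ1d]
    exact min_le_left _ _
  have hγ1b : γ1 ≤ 1 / 2 := by
    rw [hγ1d]
    exact (min_le_right _ _).trans (min_le_left _ _)
  have hγ1c : γ1 ≤ 1 / (2 * k) := by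
    rw [hγ1d]
    exact (min_le_right _ _).trans (min_le_right _ _)
  refine ⟨γ1, hγ1, max n1 1, ?_⟩
  intro n hn F hF s hxs h2s hcard y hy0 hysum hst hF1
  have hn1 : n1 ≤ n := (le_max_left _ _).trans hn
  have hn0 : 1 ≤ n := (le_max_right _ _).trans hn
  have hnR : (0 : ℝ) < n := by exact_mod_cast hn0
  have hsn : (s : ℝ) ≤ n := by
    have : s ≤ n := by omega
    exact_mod_cast this
  obtain ⟨Q, hQ⟩ : ∃ Q : Finset (Fin n), Q = univ.filter (fun v => γ1 < y v ∧ y v < 1 - γ1) :=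
    ⟨_, rfl⟩
  have hQc : (Q.card : ℝ) ≤ γ1 * n := by
    rw [hQ]
    exact hst
  obtain ⟨S, hS⟩ : ∃ S : Finset (Fin n), S = univ.filter (fun v => 1 - γ1 ≤ y v) := ⟨_, rfl⟩
  have hS1 : (S.card : ℝ) ≤ s + γ' * n := by
    have h1 : (1 - γ1) * (S.card : ℝ) ≤ ∑ v, y v := by
      calc (1 - γ1) * (S.card : ℝ) = ∑ _v ∈ S, (1 - γ1) := by
            rw [sum_const, nsmul_eq_mul]
            ring
        _ ≤ ∑ v ∈ S, y v := sum_le_sum fun v hv => by
            rw [hS] at hv
            exact (mem_filter.1 hv).2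
        _ ≤ ∑ v, y v := sum_le_sum_of_subset_of_nonneg (subset_univ _) fun v _ _ => hy0 v
    have h2 : (1 - γ1) * (S.card : ℝ) ≤ s + γ1 * n := h1.trans hysum
    have hδn : γ1 * n ≤ n := by nlinarith
    have h3 : (S.card : ℝ) ≤ (1 + 2 * γ1) * ((1 - γ1) * (S.card : ℝ)) := by
      have h4 : (1 + 2 * γ1) * ((1 - γ1) * (S.card : ℝ)) - S.card =
          γ1 * (1 - 2 * γ1) * S.card := by ring
      have h5 : 0 ≤ γ1 * (1 - 2 * γ1) * (S.card : ℝ) := by
        have : 0 ≤ 1 - 2 * γ1 := by linarith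
        positivity
      linarith
    have h6 : (1 + 2 * γ1) * ((1 - γ1) * (S.card : ℝ)) ≤ (1 + 2 * γ1) * (s + γ1 * n) :=
      mul_le_mul_of_nonneg_left h2 (by positivity)
    have h7 : 2 * γ1 * ((s : ℝ) + γ1 * n) ≤ 2 * γ1 * (2 * n) :=
      mul_le_mul_of_nonneg_left (by linarith) (by positivity)
    have h8 : (4 * γ1) * (n : ℝ) ≤ γ' / 2 * n := mul_le_mul_of_nonneg_right (by linarith) hnR.le
    have h9 : γ1 * (n : ℝ) ≤ γ' / 2 * n := mul_le_mul_of_nonneg_right (by linarith) hnR.le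
    have h10 : (1 + 2 * γ1) * ((s : ℝ) + γ1 * n) = s + γ1 * n + 2 * γ1 * (s + γ1 * n) := by ring
    linarith
  have hS2 : ((F.filter (fun e => Disjoint e S)).card : ℝ) ≤ γ' * (n : ℝ) ^ k := by
    have hsub : F.filter (fun e => Disjoint e S) ⊆
        F.filter (fun e => ∑ v ∈ e, y v < 1) ∪ Q.biUnion (fun v => F.filter (fun e => v ∈ e)) := by
      intro e he
      have he' := mem_filter.1 he
      rw [mem_union]
      by_cases hsum : ∑ v ∈ e, y v < 1
      · exact Or.inl (mem_filter.2 ⟨he'.1, hsum⟩)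
      · right
        by_contra hno
        refine hsum ?_
        have hsmall : ∀ v ∈ e, y v ≤ γ1 := by
          intro v hv
          by_contra hlt
          have h1 : v ∉ S := Finset.disjoint_left.1 he'.2 hv
          rw [hS, mem_filter, not_and] at h1
          have h2 := not_le.1 (h1 (mem_univ v))
          refine hno (mem_biUnion.2 ⟨v, ?_, mem_filter.2 ⟨he'.1, hv⟩⟩)
          rw [hQ]
          exact mem_filter.2 ⟨mem_univ v, not_le.1 hlt, h2⟩
        calc ∑ v ∈ e, y v ≤ ∑ _v ∈ e, γ1 := sum_le_sum hsmall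
          _ = k * γ1 := by rw [sum_const, nsmul_eq_mul, hF e he'.1]
          _ ≤ k * (1 / (2 * k)) := mul_le_mul_of_nonneg_left hγ1c hk0.le
          _ = 1 / 2 := by field_simp
          _ < 1 := by norm_num
    have h1 : (F.filter (fun e => Disjoint e S)).card ≤
        (F.filter (fun e => ∑ v ∈ e, y v < 1)).card + Q.card * n ^ (k - 1) := by
      refine (card_le_card hsub).trans ((card_union_le _ _).trans ?_)
      refine Nat.add_le_add_left ?_ _
      refine card_biUnion_le.trans ?_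
      calc ∑ v ∈ Q, (F.filter (fun e => v ∈ e)).card ≤ ∑ _v ∈ Q, n ^ (k - 1) :=
            sum_le_sum fun v _ => dg_le_pow F hF v
        _ = Q.card * n ^ (k - 1) := by rw [sum_const, smul_eq_mul]
    have h2 : ((F.filter (fun e => Disjoint e S)).card : ℝ) ≤
        ((F.filter (fun e => ∑ v ∈ e, y v < 1)).card : ℝ) + Q.card * (n : ℝ) ^ (k - 1) := by
      exact_mod_cast h1
    have h3 : (Q.card : ℝ) * (n : ℝ) ^ (k - 1) ≤ γ1 * n * (n : ℝ) ^ (k - 1) :=
      mul_le_mul_of_nonneg_right hQc (by positivity)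
    have h4 : γ1 * n * (n : ℝ) ^ (k - 1) = γ1 * (n : ℝ) ^ k := by
      have : (n : ℝ) ^ k = n * (n : ℝ) ^ (k - 1) := by
        rw [← pow_succ']
        congr 1
        omega
      rw [this]
      ring
    have h5 : 2 * γ1 * (n : ℝ) ^ k ≤ γ' * (n : ℝ) ^ k :=
      mul_le_mul_of_nonneg_right (by linarith) (by positivity)
    linarith
  exact H1 n hn1 F hF s hxs h2s hcard S hS1 hS2

end Pool.Agent.Q102.XU
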