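import Pool.Agent.Q113.XU.Stm

/-!
Project XU of helper113, job XU-SQ1.
-/

set_option autoImplicit false

namespace Pool.Agent.Q102.XU

open Finset Pool.Agent.W890.SF Pool.Agent.W593.IR Pool.Agent.Q54.EM Pool.Agent.Q113.XM
  Pool.Agent.Q113.XU Filter Topology

/-- the data as a point of `ℝ^9` -/
def DTz (k : ℕ) (r a : ℝ) (z : Fin 9 → ℝ) : Prop :=
  DT k r (z 0) a (z 1) (z 2) (z 3) (z 4) (z 5) (z 6) (z 7) (z 8)

theorem DTz_closed (k : ℕ) (r a : ℝ) : IsClosed {z : Fin 9 → ℝ | DTz k r a z} := by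
  have h : {z : Fin 9 → ℝ | DTz k r a z} =
      {z | 0 ≤ z 4} ∩ ({z | k * z 4 ≤ r} ∩ ({z | 0 ≤ z 6} ∩ ({z | z 6 ≤ 1} ∩ ({z | 0 ≤ z 5} ∩
      ({z | z 5 ≤ 1} ∩ ({z | z 3 * (1 - z 0) = ((1 - z 4) ^ k - z 5) * (1 - z 0) +
        (k : ℝ) * z 4 * z 2 * z 6} ∩ ({z | z 7 = r - k * z 4 * (1 - z 0 - z 6)} ∩
      ({z | z 7 * (1 - z 0 - (a + 1 / 20)) * (1 + z 1) ≤ (1 - z 0 - a) * (z 1 + z 0)} ∩
      ({z | z 5 * ((1 - (a + 1 / 20)) * (1 - 2 * (a + 1 / 20))) ≤ z 7 ^ 3} ∩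
      ({z | z 0 ≤ z 8} ∩ ({z | z 8 ≤ z 0 + z 6} ∩
      {z | (z 8 * (1 - z 4) ^ (k - 1) - (1 - 1 / k) * z 7 * (1 - z 4) ^ (k - 2)) * z 7 *
        (1 - z 0) + (1 - (a + 1 / 20) - z 8) * z 5 * (1 - z 0) ≤
        z 8 * z 2 * (z 8 - z 0) * z 7}))))))))))) := by
    ext z
    constructor
    · intro h
      exact ⟨h.pp0, h.pp1, h.dl0, h.dl1, h.A0, h.A1, h.eW, h.em, h.ms1, h.hA, h.s0, h.s1, h.mn⟩
    · rintro ⟨h1, h2, h3, h4, h5, h6, h7, h8, h9, h10, h11, h12, h13⟩
      exact ⟨h1, h2, h3, h4, h5, h6, h7, h8, h9, h10, h11, h12, h13⟩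
  rw [h]
  refine IsClosed.inter (isClosed_le (by fun_prop) (by fun_prop)) ?_
  refine IsClosed.inter (isClosed_le (by fun_prop) (by fun_prop)) ?_
  refine IsClosed.inter (isClosed_le (by fun_prop) (by fun_prop)) ?_
  refine IsClosed.inter (isClosed_le (by fun_prop) (by fun_prop)) ?_
  refine IsClosed.inter (isClosed_le (by fun_prop) (by fun_prop)) ?_
  refine IsClosed.inter (isClosed_le (by fun_prop) (by fun_prop)) ?_
  refine IsClosed.inter (isClosed_eq (by fun_prop) (by fun_prop)) ?_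
  refine IsClosed.inter (isClosed_eq (by fun_prop) (by fun_prop)) ?_
  refine IsClosed.inter (isClosed_le (by fun_prop) (by fun_prop)) ?_
  refine IsClosed.inter (isClosed_le (by fun_prop) (by fun_prop)) ?_
  refine IsClosed.inter (isClosed_le (by fun_prop) (by fun_prop)) ?_
  refine IsClosed.inter (isClosed_le (by fun_prop) (by fun_prop)) ?_
  exact isClosed_le (by fun_prop) (by fun_prop)

/-- **XU-SQ1** -/
theorem t_SQ1 : S_NMO → S_NCL → S_NLE → S_GAPL → S_W1D → S_W1L → S_SQ1 := by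
  intro hNMO hNCL hNLE hGAPL hW1D hW1L k r ι _ p x l L H w hSQ hL1 hL2
  have hk6 := hSQ.k6
  have hrc := hSQ.rc
  have hr0 : 0 < r := hrc.1
  have hr1 : r < 1 := hrc.2.1
  have hk0 : (0 : ℝ) < k := by
    have : 0 < k := by omega
    exact_mod_cast this
  have hk1 : (1 : ℝ) ≤ k := by
    have : 1 ≤ k := by omega
    exact_mod_cast this
  have hNL : NLi k r L H w := hNCL k r l (fun j => hh k (p j) (x j))
    (fun j => PR (p j) (x j) (k - 1) k) (fun j => PR (p j) (x j) k k) L H w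
    (fun j => (hNMO (ι j) (p j) (x j) k r (l j) hk6 hrc (hSQ.op j)).1) hSQ.tL hSQ.tH hSQ.tw hSQ.tW
  have hE := hNLE k r L H w hNL hL1 hL2
  have hH0 : 0 < H := hNL.h0
  have hL0 : 0 < L := hr0.trans hNL.ql
  have hLk : L / k < 1 := (div_lt_one hk0).2 hL2
  have hLk2 : 8 / 10 < L / k := by
    rw [lt_div_iff₀ hk0]
    exact hL1
  have te : Tendsto (fun j => l j / hh k (p j) (x j) - 1) atTop (𝓝 (L / H - 1)) :=
    (hSQ.tL.div hSQ.tH hH0.ne').sub_const 1
  have hev : ∀ᶠ j in atTop, (8 / 10 * (k : ℝ) < l j ∧ l j < k) ∧ ∃ pp A dl ms s : ℝ,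
      DT k r (1 - l j / k) (r / k) (l j / hh k (p j) (x j) - 1) (PR (p j) (x j) (k - 1) k)
        (PR (p j) (x j) k k) pp A dl ms s := by
    have h1 : ∀ᶠ j in atTop, 8 / 10 * (k : ℝ) < l j := hSQ.tL.eventually_const_lt hL1
    have h2 : ∀ᶠ j in atTop, l j < k := hSQ.tL.eventually_lt_const hL2
    have h3 : ∀ᶠ j in atTop, l j / hh k (p j) (x j) - 1 < 3 / 10 :=
      te.eventually_lt_const (by linarith)
    have h4 := hGAPL k r ι p x l L H w hSQ hL1 hL2
    filter_upwards [h1, h2, h3, h4] with j a1 a2 a3 a4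
    exact ⟨⟨a1, a2⟩, hW1D (ι j) (p j) (x j) k r (l j) hk6 hrc (hSQ.op j) a1 a2 a3.le a4⟩
  obtain ⟨N, hN⟩ := eventually_atTop.1 hev
  choose hl pp A dl ms s hDT using fun n : ℕ => hN (N + n) (Nat.le_add_right N n)
  have hsh : Tendsto (fun n : ℕ => N + n) atTop atTop :=
    (tendsto_add_atTop_nat N).congr fun n => Nat.add_comm n N
  obtain ⟨y, hyd⟩ : ∃ y : ℕ → Fin 5 → ℝ, y = fun n => ![pp n, A n, dl n, ms n, s n] := ⟨_, rfl⟩
  have hy : ∀ n, y n ∈ Set.Icc (fun _ : Fin 5 => (-2 : ℝ)) (fun _ => 2) := by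
    intro n
    have hd := hDT n
    have hl' := hl n
    have t0 : 0 < 1 - l (N + n) / k := by
      have : l (N + n) / k < 1 := (div_lt_one hk0).2 hl'.2
      linarith
    have t1 : 1 - l (N + n) / k < 2 / 10 := by
      have : 8 / 10 < l (N + n) / k := by
        rw [lt_div_iff₀ hk0]
        exact hl'.1
      linarith
    have b1 := hd.pp0
    have b2 := hd.pp1
    have b3 := hd.dl0
    have b4 := hd.dl1
    have b5 := hd.A0
    have b6 := hd.A1
    have b7 := hd.s0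
    have b8 := hd.s1
    have b9 := hd.em
    have c1 : pp n ≤ 1 := by nlinarith
    have c2 : 0 ≤ k * pp n := mul_nonneg hk0.le b1
    have c3 : -1 ≤ k * pp n * (1 - (1 - l (N + n) / k) - dl n) := by nlinarith
    have c4 : k * pp n * (1 - (1 - l (N + n) / k) - dl n) ≤ 1 := by nlinarith
    rw [hyd, Set.mem_Icc, Pi.le_def, Pi.le_def]
    constructor
    · intro i
      fin_cases i
      · show (-2 : ℝ) ≤ pp n
        linarith
      · show (-2 : ℝ) ≤ A n
        linarith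
      · show (-2 : ℝ) ≤ dl n
        linarith
      · show (-2 : ℝ) ≤ ms n
        linarith
      · show (-2 : ℝ) ≤ s n
        linarith
    · intro i
      fin_cases i
      · show pp n ≤ 2
        linarith
      · show A n ≤ 2
        linarith
      · show dl n ≤ 2
        linarith
      · show ms n ≤ 2
        linarith
      · show s n ≤ 2
        linarith
  obtain ⟨ys, _, φ, hφ, hlim⟩ := isCompact_Icc.tendsto_subseq hy
  have hφt : Tendsto (fun n => N + φ n) atTop atTop := hsh.comp hφ.tendsto_atTop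
  rw [tendsto_pi_nhds] at hlim
  have l0 : Tendsto (fun n => pp (φ n)) atTop (𝓝 (ys 0)) := by
    have := hlim 0
    rw [hyd] at this
    exact this
  have l1 : Tendsto (fun n => A (φ n)) atTop (𝓝 (ys 1)) := by
    have := hlim 1
    rw [hyd] at this
    exact this
  have l2 : Tendsto (fun n => dl (φ n)) atTop (𝓝 (ys 2)) := by
    have := hlim 2
    rw [hyd] at this
    exact this
  have l3 : Tendsto (fun n => ms (φ n)) atTop (𝓝 (ys 3)) := by
    have := hlim 3
    rw [hyd] at this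
    exact this
  have l4 : Tendsto (fun n => s (φ n)) atTop (𝓝 (ys 4)) := by
    have := hlim 4
    rw [hyd] at this
    exact this
  have m0 : Tendsto (fun n => 1 - l (N + φ n) / k) atTop (𝓝 (1 - L / k)) :=
    ((hSQ.tL.comp hφt).div_const _).const_sub 1
  have m1 : Tendsto (fun n => l (N + φ n) / hh k (p (N + φ n)) (x (N + φ n)) - 1) atTop
      (𝓝 (L / H - 1)) := te.comp hφt
  have m2 : Tendsto (fun n => PR (p (N + φ n)) (x (N + φ n)) (k - 1) k) atTop (𝓝 w) :=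
    hSQ.tw.comp hφt
  have m3 : Tendsto (fun n => PR (p (N + φ n)) (x (N + φ n)) k k) atTop (𝓝 (1 - r ^ k)) :=
    hSQ.tW.comp hφt
  have hz : Tendsto (fun n => (![1 - l (N + φ n) / k,
      l (N + φ n) / hh k (p (N + φ n)) (x (N + φ n)) - 1,
      PR (p (N + φ n)) (x (N + φ n)) (k - 1) k, PR (p (N + φ n)) (x (N + φ n)) k k,
      pp (φ n), A (φ n), dl (φ n), ms (φ n), s (φ n)] : Fin 9 → ℝ)) atTop
      (𝓝 ![1 - L / k, L / H - 1, w, 1 - r ^ k, ys 0, ys 1, ys 2, ys 3, ys 4]) := by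
    rw [tendsto_pi_nhds]
    intro i
    fin_cases i
    · exact m0
    · exact m1
    · exact m2
    · exact m3
    · exact l0
    · exact l1
    · exact l2
    · exact l3
    · exact l4
  have hDTl : DTz k r (r / k) ![1 - L / k, L / H - 1, w, 1 - r ^ k, ys 0, ys 1, ys 2, ys 3, ys 4] :=
    (DTz_closed k r (r / k)).mem_of_tendsto hz (Eventually.of_forall fun n => hDT (φ n))
  refine hW1L k r (1 - L / k) (r / L) (r / k) (L / H - 1) w (1 - r ^ k) (ys 0) (ys 1) (ys 2)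
    (ys 3) (ys 4) hk6 hrc rfl rfl ?_ ((div_lt_one hL0).2 hNL.ql) hNL.w1e (by linarith)
    (by linarith) ?_ hE hDTl
  · rw [show 1 - (1 - L / (k : ℝ)) = L / k by ring]
    field_simp
  · have : 1 ≤ L / H := (one_le_div hH0).2 hNL.hl
    linarith

end Pool.Agent.Q102.XU
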