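import Pool.Agent.Q113.XU.Stm

/-!
Project XU of helper113, job XU-UNI.
-/

set_option autoImplicit false

namespace Pool.Agent.Q102.XU

open Finset Pool.Agent.W890.SF Pool.Agent.W593.IR Pool.Agent.Q54.EM Pool.Agent.Q113.XM
  Pool.Agent.Q113.XU

section opt

variable {ι : Type} [Fintype ι]

/-- the weights with two additional atoms of weight zero -/
def p2 (p : ι → ℝ) : Option (Option ι) → ℝ
  | none => 0
  | some none => 0
  | some (some i) => p i

/-- the values with two additional atoms with the values `0`, `k` -/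
def x2 (k : ℕ) (x : ι → ℝ) : Option (Option ι) → ℝ
  | none => 0
  | some none => k
  | some (some i) => x i

theorem sum_p2 (p : ι → ℝ) (g : Option (Option ι) → ℝ) :
    ∑ i, p2 p i * g i = ∑ i, p i * g (some (some i)) := by
  rw [Fintype.sum_option, Fintype.sum_option]
  simp [p2]

theorem EE_p2 (k : ℕ) (p x : ι → ℝ) (n : ℕ) : ∀ f : ℝ → ℝ, EE (p2 p) (x2 k x) n f = EE p x n f := by
  induction n with
  | zero => intro f; rfl
  | succ n ih =>
    intro f
    show ∑ i, p2 p i * EE (p2 p) (x2 k x) n (fun s => f (s + x2 k x i)) =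
      ∑ i, p i * EE p x n (fun s => f (s + x i))
    rw [sum_p2 p (fun i => EE (p2 p) (x2 k x) n (fun s => f (s + x2 k x i)))]
    apply sum_congr rfl
    intro i _
    rw [ih]
    rfl

theorem feas_p2 {k : ℕ} {r : ℝ} {p x : ι → ℝ} (h : Fz k r p x) :
    Feas k r none (some none) (p2 p) (x2 k x) where
  p0 := by
    rintro (_ | _ | i)
    · exact le_refl _
    · exact le_refl _
    · exact h.p0 i
  p1 := by
    have := sum_p2 p (fun _ => 1)
    simp only [mul_one] at this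
    rw [this]
    exact h.p1
  x0 := by
    rintro (_ | _ | i)
    · exact le_refl _
    · exact Nat.cast_nonneg k
    · exact h.x0 i
  xk := by
    rintro (_ | _ | i)
    · exact Nat.cast_nonneg k
    · exact le_refl _
    · exact h.xk i
  xo := rfl
  xt := rfl
  m := by
    have := sum_p2 p (x2 k x)
    exact this.trans h.m

theorem dS_p2 (k : ℕ) (p x : ι → ℝ) : dS k (p2 p) (x2 k x) = dS k p x :=
  sum_p2 p (fun i => min (x2 k x i) (k - x2 k x i))

theorem dC_p2 (k : ℕ) (p x : ι → ℝ) : dC (p2 p) (x2 k x) = dC p x :=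
  sum_p2 p (fun i => min (x2 k x i) |x2 k x i - 1|)

end opt

theorem Fz_of_Feas {ι : Type} [Fintype ι] {k : ℕ} {r : ℝ} {o t : ι} {p x : ι → ℝ}
    (h : Feas k r o t p x) : Fz k r p x := ⟨h.p0, h.p1, h.x0, h.xk, h.m⟩

/-- **XU-UNI** -/
theorem t_UNI : (∀ k, 2 ≤ k → LMW k) → S_LSS → S_LCS → S_RMN → S_RLM → S_LOP → S_CPT → Q113.XU.S_UNI := by
  intro hL hLSS hLCS hRMN hRLM hLOP hCPT k r γ hk hr hγ
  have hr0 : 0 < r := hr.1
  have hr1 : r < 1 := hr.2.1
  obtain ⟨κ1, g1, hκ1, hg1, H1⟩ := hLSS k r (by omega) hr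
  obtain ⟨κ2, g2, hκ2, hg2, H2⟩ := hLCS k r (by omega) (hL k (by omega)) hr
  obtain ⟨γ0, hγ0d⟩ : ∃ γ0 : ℝ, γ0 = min g1 g2 := ⟨_, rfl⟩
  have hγ0 : 0 < γ0 := by rw [hγ0d]; exact lt_min hg1 hg2
  have hγ01 : γ0 ≤ g1 := by rw [hγ0d]; exact min_le_left _ _
  have hγ02 : γ0 ≤ g2 := by rw [hγ0d]; exact min_le_right _ _
  obtain ⟨γs, hγsd⟩ : ∃ γs : ℝ, γs = min γ (γ0 / 2) := ⟨_, rfl⟩
  have hγs : 0 < γs := by rw [hγsd]; exact lt_min hγ (by linarith)
  have hγs1 : γs ≤ γ := by rw [hγsd]; exact min_le_left _ _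
  have hγs2 : γs ≤ γ0 / 2 := by rw [hγsd]; exact min_le_right _ _
  obtain ⟨ηC, hηC, HC⟩ := hCPT k r γ0 hk hr hγ0
  obtain ⟨κ, hκd⟩ : ∃ κ : ℝ, κ = min κ1 κ2 := ⟨_, rfl⟩
  have hκ : 0 < κ := by rw [hκd]; exact lt_min hκ1 hκ2
  have hκa : κ ≤ κ1 := by rw [hκd]; exact min_le_left _ _
  have hκb : κ ≤ κ2 := by rw [hκd]; exact min_le_right _ _
  have hrk : 0 < r ^ k := pow_pos hr0 k
  obtain ⟨η, hηd⟩ : ∃ η : ℝ, η = min (κ * γs / 2) (min ηC (r ^ k / 2)) := ⟨_, rfl⟩
  have hη : 0 < η := by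
    rw [hηd]
    exact lt_min (by positivity) (lt_min hηC (by positivity))
  have hη1 : η ≤ κ * γs / 2 := by rw [hηd]; exact min_le_left _ _
  have hη2 : η ≤ ηC := by rw [hηd]; exact (min_le_right _ _).trans (min_le_left _ _)
  have hη3 : η ≤ r ^ k / 2 := by rw [hηd]; exact (min_le_right _ _).trans (min_le_right _ _)
  refine ⟨η, hη, ?_⟩
  intro ι _ p x hF hPR
  by_contra hcon
  rw [not_or, not_le, not_le] at hcon
  have hRc : Rc k r γs none (some none) (p2 p) (x2 k x) :=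
    ⟨feas_p2 hF, by rw [dS_p2]; linarith [hcon.1], by rw [dC_p2]; linarith [hcon.2]⟩
  obtain ⟨p', x', hRc', hPR', hmin⟩ := hRMN (Option (Option ι)) k r γs none (some none) _ _ hRc
  have hPR0 : PR (p2 p) (x2 k x) k k = PR p x k k := EE_p2 k p x k _
  rw [hPR0] at hPR'
  have hPR'' : PR p' x' k k ≤ 1 - r ^ k + η := hPR'.trans hPR
  obtain ⟨hFe, hdS, hdC⟩ := hRc'
  have hFz := Fz_of_Feas hFe
  have hS : γ0 < dS k p' x' := by
    by_contra h
    rw [not_lt] at h
    have h1 := H1 _ p' x' hFz (h.trans hγ01)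
    have h2 : κ * γs ≤ κ1 * dS k p' x' := mul_le_mul hκa hdS hγs.le hκ1.le
    have h3 : 0 < κ * γs := mul_pos hκ hγs
    linarith
  have hC : γ0 < dC p' x' := by
    by_contra h
    rw [not_lt] at h
    have h1 := H2 _ p' x' hFz (h.trans hγ02)
    have h2 : κ * γs ≤ κ2 * dC p' x' := mul_le_mul hκb hdC hγs.le hκ2.le
    have h3 : 0 < κ * γs := mul_pos hκ hγs
    linarith
  have hLoc := hRLM _ k r γs none (some none) p' x' hFe (by linarith) (by linarith) hmin
  obtain ⟨ι', _, p'', x'', l, hOp, e1, e2, e3⟩ := hLOP _ k r none (some none) p' x' (by omega)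
    hr0 hr1 hLoc (by linarith)
  rcases HC ι' p'' x'' l hOp (by rw [e1]; linarith) with h | h
  · rw [e2] at h
    linarith
  · rw [e3] at h
    linarith

end Pool.Agent.Q102.XU
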