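import Pool.Agent.Q113.XU.Stm

/-!
Project XU of helper113, job XU-WST.
-/

set_option autoImplicit false

namespace Pool.Agent.Q102.XU

open Finset Pool.Agent.W890.SF Pool.Agent.W593.IR Pool.Agent.Q54.EM Pool.Agent.Q113.XM
  Pool.Agent.Q113.XU

theorem pow_sub_le_mul {a b : ℝ} (hb : 0 ≤ b) (hba : b ≤ a) (ha : a ≤ 1) (k : ℕ) :
    a ^ k - b ^ k ≤ k * (a - b) := by
  induction k with
  | zero => simp
  | succ k ih =>
    have h1 : a ^ (k + 1) - b ^ (k + 1) = a * (a ^ k - b ^ k) + (a - b) * b ^ k := by ring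
    have h2 : a * (a ^ k - b ^ k) ≤ 1 * (a ^ k - b ^ k) := by
      apply mul_le_mul_of_nonneg_right ha
      have := pow_le_pow_left₀ hb hba k
      linarith
    have h3 : (a - b) * b ^ k ≤ (a - b) * 1 := by
      apply mul_le_mul_of_nonneg_left (pow_le_one₀ hb (hba.trans ha))
      linarith
    rw [h1]
    push_cast
    linarith

/-- uniform sums -/
theorem sum_unif_card {n : ℕ} (hn : (0 : ℝ) < n) (P : Fin n → Prop) [DecidablePred P] (γ : ℝ)
    (h : ∑ i, (if P i then 1 / (Fintype.card (Fin n) : ℝ) else 0) ≤ γ) :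
    (((univ.filter (fun v : Fin n => P v)).card : ℕ) : ℝ) ≤ γ * n := by
  rw [← sum_filter, sum_const, nsmul_eq_mul, Fintype.card_fin, mul_one_div, div_le_iff₀ hn] at h
  exact h

/-- **XU-WST** -/
theorem t_WST : S_NEC → S_BRG → S_DIT → S_TYC → S_WST := by
  intro hNEC hBRG hDIT hTYC k hk hW c hc γ hγ
  obtain ⟨hc0, hc1, hc2⟩ := hc
  have hc : Crt k c := ⟨hc0, hc1, hc2⟩
  have hk0 : (0 : ℝ) < k := by
    have : 0 < k := by omega
    exact_mod_cast this
  obtain ⟨g1, hg1, n1, H1⟩ := hDIT k (by omega) (c / 2) γ (by linarith) hγ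
  obtain ⟨g2, hg2, n2, H2⟩ := hTYC k (by omega) (c / 2) γ (by linarith) hγ
  obtain ⟨g, hgd⟩ : ∃ g : ℝ, g = min g1 g2 := ⟨_, rfl⟩
  have hg : 0 < g := by rw [hgd]; exact lt_min hg1 hg2
  have hgg1 : g ≤ g1 := by rw [hgd]; exact min_le_left _ _
  have hgg2 : g ≤ g2 := by rw [hgd]; exact min_le_right _ _
  obtain ⟨η, hη, HW⟩ := hW c hc g hg
  obtain ⟨δ, hδd⟩ : ∃ δ : ℝ, δ = min (η / 2) g := ⟨_, rfl⟩
  have hδ : 0 < δ := by rw [hδd]; exact lt_min (by linarith) hg
  have hδη : δ ≤ η / 2 := by rw [hδd]; exact min_le_left _ _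
  have hδg : δ ≤ g := by rw [hδd]; exact min_le_right _ _
  obtain ⟨n3, H3⟩ := hNEC k (by omega) (c / 2) (η / 2) δ g (by linarith) (by linarith) hδ hg
  obtain ⟨ε, hεd⟩ : ∃ ε : ℝ, ε = min (c / 2) (min (η / 2) (η / (2 * (k : ℝ) ^ 2))) := ⟨_, rfl⟩
  have hε : 0 < ε := by
    rw [hεd]
    exact lt_min (by linarith) (lt_min (by linarith) (by positivity))
  have hεc : ε ≤ c / 2 := by rw [hεd]; exact min_le_left _ _
  have hεη : ε ≤ η / 2 := by rw [hεd]; exact (min_le_right _ _).trans (min_le_left _ _)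
  have hεk : ε ≤ η / (2 * (k : ℝ) ^ 2) := by
    rw [hεd]; exact (min_le_right _ _).trans (min_le_right _ _)
  refine ⟨ε, hε, max (max n1 n2) (max n3 1), ?_⟩
  intro n hn F hF s hs hks hM hcard
  have hn1 : n1 ≤ n := (le_max_left _ _).trans ((le_max_left _ _).trans hn)
  have hn2 : n2 ≤ n := (le_max_right _ _).trans ((le_max_left _ _).trans hn)
  have hn3 : n3 ≤ n := (le_max_left _ _).trans ((le_max_right _ _).trans hn)
  have hn0 : 1 ≤ n := (le_max_right _ _).trans ((le_max_right _ _).trans hn)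
  have hnR : (0 : ℝ) < n := by exact_mod_cast hn0
  have h2s : 2 * s ≤ n := by
    have : 2 * s ≤ k * (s + 1) := Nat.mul_le_mul (by omega) (by omega)
    omega
  rw [abs_le] at hs
  have hs1 : c / 2 * n ≤ (s : ℝ) := by
    have : ε * (n : ℝ) ≤ c / 2 * n := mul_le_mul_of_nonneg_right hεc hnR.le
    linarith [hs.1]
  obtain ⟨y, x, hy0, hysum, hsx, hxs', hNG, hF1⟩ := H3 n hn3 F hF s hs1 hks hM hcard
  have hne : Nonempty (Fin n) := ⟨⟨0, by omega⟩⟩
  obtain ⟨b1, b2, b3⟩ := hBRG (Fin n) y hy0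
  -- bounds for `x`
  have hxlo : c - ε ≤ x := by
    refine le_of_mul_le_mul_right (a := (n : ℝ)) ?_ hnR
    have : (c - ε) * (n : ℝ) = c * n - ε * n := by ring
    rw [this]
    linarith [hs.1]
  have hxhi : x ≤ c + η := by
    refine le_of_mul_le_mul_right (a := (n : ℝ)) ?_ hnR
    have h1 : (ε + δ) * (n : ℝ) ≤ η * n := mul_le_mul_of_nonneg_right (by linarith) hnR.le
    have h2 : (c + η) * (n : ℝ) = c * n + η * n := by ring
    rw [h2]
    linarith [hs.2]
  have hmu : mu (fun _ : Fin n => 1 / (Fintype.card (Fin n) : ℝ)) y ≤ c + η := by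
    rw [b2, Fintype.card_fin, div_le_iff₀ hnR]
    exact hysum.trans (mul_le_mul_of_nonneg_right hxhi hnR.le)
  -- the lower bound for the probability
  have hpow : ((k : ℝ) * c) ^ k - η / 2 ≤ mv k x := by
    have h1 : ((k : ℝ) * (c - ε)) ^ k ≤ mv k x := by
      refine le_trans ?_ (le_max_right _ _)
      apply pow_le_pow_left₀ (mul_nonneg hk0.le (by linarith))
      exact mul_le_mul_of_nonneg_left hxlo hk0.le
    have h2 := pow_sub_le_mul (a := (k : ℝ) * c) (b := (k : ℝ) * (c - ε))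
      (mul_nonneg hk0.le (by linarith)) (mul_le_mul_of_nonneg_left (by linarith) hk0.le)
      hc1.le k
    have h3 : (k : ℝ) * ((k : ℝ) * c - (k : ℝ) * (c - ε)) = (k : ℝ) ^ 2 * ε := by ring
    have h4 : (k : ℝ) ^ 2 * ε ≤ η / 2 := by
      calc (k : ℝ) ^ 2 * ε ≤ (k : ℝ) ^ 2 * (η / (2 * (k : ℝ) ^ 2)) :=
            mul_le_mul_of_nonneg_left hεk (by positivity)
        _ = η / 2 := by field_simp
    linarith
  have hUP : ((k : ℝ) * c) ^ k - η ≤ UP (fun _ : Fin n => 1 / (Fintype.card (Fin n) : ℝ)) y k 1 := by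
    have h1 := b3 k 1
    rw [Fintype.card_fin] at h1
    have h2 : (0 : ℝ) < (n : ℝ) ^ k := by positivity
    refine le_of_mul_le_mul_right (a := (n : ℝ) ^ k) ?_ h2
    rw [Fintype.card_fin, h1]
    have h3 : (((k : ℝ) * c) ^ k - η) * (n : ℝ) ^ k ≤ (mv k x - η / 2) * (n : ℝ) ^ k :=
      mul_le_mul_of_nonneg_right (by linarith) h2.le
    exact h3.trans hNG
  have hysum' : ∀ g' : ℝ, g ≤ g' → ∑ v, y v ≤ s + g' * n := by
    intro g' hg'
    have : δ * (n : ℝ) ≤ g' * n := mul_le_mul_of_nonneg_right (hδg.trans hg') hnR.le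
    linarith
  have hF1' : ∀ g' : ℝ, g ≤ g' →
      ((F.filter (fun e => ∑ v ∈ e, y v < 1)).card : ℝ) ≤ g' * (n : ℝ) ^ k := by
    intro g' hg'
    exact hF1.trans (mul_le_mul_of_nonneg_right hg' (by positivity))
  rcases HW (Fin n) (fun _ : Fin n => 1 / (Fintype.card (Fin n) : ℝ)) y b1 hmu hUP with h | h
  · left
    have h1 := sum_unif_card hnR _ g h
    refine H1 n hn1 F hF s hs1 h2s ((le_max_left _ _).trans hcard) y hy0 (hysum' g1 hgg1) ?_
      (hF1' g1 hgg1)
    refine le_trans ?_ (h1.trans (mul_le_mul_of_nonneg_right hgg1 hnR.le))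
    have h2 : (univ.filter (fun v : Fin n => g1 < y v ∧ y v < 1 - g1)).card ≤
        (univ.filter (fun v : Fin n => g < y v ∧ y v < 1 - g)).card := by
      apply card_le_card
      intro v hv
      rw [mem_filter] at hv ⊢
      exact ⟨hv.1, by linarith [hv.2.1], by linarith [hv.2.2]⟩
    exact_mod_cast h2
  · right
    have h1 := sum_unif_card hnR _ g h
    refine H2 n hn2 F hF s hs1 hks ((le_max_right _ _).trans hcard) y hy0 (hysum' g2 hgg2) ?_
      (hF1' g2 hgg2)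
    refine le_trans ?_ (h1.trans (mul_le_mul_of_nonneg_right hgg2 hnR.le))
    have h2 : (univ.filter (fun v : Fin n => g2 < y v ∧ g2 < |y v - 1 / (k : ℝ)|)).card ≤
        (univ.filter (fun v : Fin n => g < y v ∧ g < |y v - 1 / (k : ℝ)|)).card := by
      apply card_le_card
      intro v hv
      rw [mem_filter] at hv ⊢
      exact ⟨hv.1, by linarith [hv.2.1], by linarith [hv.2.2]⟩
    exact_mod_cast h2

end Pool.Agent.Q102.XU
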